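import Pool.Agent.P.MP_58cc54_co.UFinal

namespace Pool.Agent.Results.MP_58cc54_co.EveryUnicyclic

/-- The edges of the complete graph on n vertices that lie outside the set X. -/
def free {n : ℕ} (X : Finset (Sym2 (Fin n))) : Finset (Sym2 (Fin n)) :=
  (Finset.univ.filter (fun e : Sym2 (Fin n) => ¬ e.IsDiag)) \ X

/-- Enforcer wins the strict (1:b) game for H on n vertices. There is a set S of positions
(edges of Avoider, edges of Enforcer), Avoider to move, that contains the empty position; in a
position of S with no free edge the graph of Avoider contains a copy of H; and to every free edge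
that Avoider claims, Enforcer has an answer of b free edges (all that remain, if fewer remain)
that leads to a position of S. -/
def EnforcerWins {V : Type} (H : SimpleGraph V) (n b : ℕ) : Prop :=
  ∃ S : Set (Finset (Sym2 (Fin n)) × Finset (Sym2 (Fin n))),
    ((∅ : Finset (Sym2 (Fin n))), (∅ : Finset (Sym2 (Fin n)))) ∈ S ∧
    ∀ p ∈ S,
      (free (p.1 ∪ p.2) = ∅ →
        H.IsContained (SimpleGraph.fromEdgeSet (p.1 : Set (Sym2 (Fin n))))) ∧
      ∀ e ∈ free (p.1 ∪ p.2), ∃ T : Finset (Sym2 (Fin n)),
        T ⊆ free (insert e (p.1 ∪ p.2)) ∧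
        T.card = min b (free (insert e (p.1 ∪ p.2))).card ∧
        (insert e p.1, p.2 ∪ T) ∈ S

theorem result (V : Type) [Fintype V] [DecidableEq V] (H : SimpleGraph V) [DecidableRel H.Adj]
    (hconn : H.Connected) (hcard : H.edgeFinset.card = Fintype.card V)
    (c : ℝ) (hc : 0 < c) (n₀ : ℕ) :
    ∃ n : ℕ, n₀ ≤ n ∧ ∀ b : ℕ, EnforcerWins H n b →
      (b : ℝ) < c * (n : ℝ) ^ ((Fintype.card V : ℝ) / ((Fintype.card V : ℝ) - 1)) := by
  have hH : ¬ H.IsAcyclic := by
    intro h
    have := (SimpleGraph.IsTree.mk hconn h).card_edgeFinset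
    omega
  obtain ⟨n, hn, h⟩ := Pool.Agent.P.MP_58cc54_co.cyc_gap H hconn hH c hc n₀
  refine ⟨n, hn, fun b hb => ?_⟩
  by_contra hge
  exact h b (not_lt.1 hge) hb

end Pool.Agent.Results.MP_58cc54_co.EveryUnicyclic
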